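import Pool.Agent.Run7.h457.PM.Vec

/-!
# The realizations of generated motives, for one prime number
-/

set_option autoImplicit false
set_option linter.unusedSectionVars false

namespace Run7.h457.PM

open Matrix NumberField Filter Topology Run7.h457.MT Pool.Agent.W401.Cheb Pool.Agent.N184.HK
open Run7.h869.HG (HKC Family copy)
open Pool.Agent.Run7.h483.MT (GoodR)

noncomputable section

attribute [local instance] Run7.h869.HG.Etale.field Run7.h869.HG.Etale.numberField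

variable {F : Type} [Field F]

/-- The Hodge structures, for another name of the dimension. -/
def copyH {d d' : ℕ} {B : LLV d} (W : B.Hodge) (h : d' = d) : (copy B h).Hodge where
  V := W.V
  J := W.J
  skew := W.skew
  verb := fun i hi => W.verb i (hi.trans_eq h)

/-- The comparison, for another name of the dimension. -/
def toArtin {K : Type} [Field K] [NumberField K] {ℓ : ℕ} [Fact ℓ.Prime]
    {X : HKVariety K (PadicAlgCl ℓ)} {d : ℕ} {B : LLV d} (C : Run7.h869.HG.Artin X B)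
    (h : X.d = d) : Run7.h457.MT.Artin X (copy B h) where
  b := C.b
  hq := fun j k => C.hq j k
  hρ := fun i A => C.hρ i A
  G := C.G
  hG := fun i σ => C.hG i σ

/-- The family, for one prime number. -/
def toFam (V : Family F) (p : ℕ) [Fact p.Prime] : HKFam F p V.T where
  K := (V.E p).K
  V t :=
    { X := (V.E p).D.Y t
      B := copy (V.X t).B ((V.E p).D.hd t)
      W := copyH (V.X t).W ((V.E p).D.hd t)
      C := toArtin ((V.E p).D.C t) ((V.E p).D.hd t)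
      sen := fun Q hQ h => by
        obtain ⟨s⟩ := (V.E p).D.sen t Q hQ h
        exact ⟨⟨s.J, s.skew, s.Θ, fun i hi => s.hΘ i (hi.trans_eq ((V.E p).D.hd t)),
          fun i hi a ha => s.sen i (hi.trans_eq ((V.E p).D.hd t)) a ha⟩⟩ }
  W t := copyH (V.X t).W ((V.E p).D.hd t)
  G := (V.E p).G
  image := fun γ => by
    obtain ⟨σ, h1, h2⟩ := (V.E p).image γ
    exact ⟨σ, fun t i hi => h2 t i (hi.trans_eq ((V.E p).D.hd t)), h1⟩

/-- The realization of a motive, for one prime number, if it is the representation `ρ`. -/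
def Motive.obj (M : Motive F) {p : ℕ} [Fact p.Prime] (ρ : GK F →* Matrix M.κ M.κ ℚ_[p]) :
    Obj p (GK F) :=
  ⟨M.κ, M.h, ρ⟩

theorem rep_left {P Q : Motive F} (p : ℕ) [Fact p.Prime] (h1 : (P.sum Q).ρ p 1 = 1)
    (hmul : ∀ σ τ, (P.sum Q).ρ p (σ * τ) = (P.sum Q).ρ p σ * (P.sum Q).ρ p τ) :
    ∃ ρ : GK F →* Matrix P.κ P.κ ℚ_[p], ∀ σ, ρ σ = P.ρ p σ := by
  refine ⟨{ toFun := P.ρ p, map_one' := ?_, map_mul' := fun σ τ => ?_ }, fun _ => rfl⟩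
  · have h : Matrix.fromBlocks (P.ρ p 1) 0 0 (Q.ρ p 1) = Matrix.fromBlocks 1 0 0 1 := by
      rw [Matrix.fromBlocks_one]
      exact h1
    exact (Matrix.fromBlocks_inj.1 h).1
  · have h : Matrix.fromBlocks (P.ρ p (σ * τ)) 0 0 (Q.ρ p (σ * τ)) =
        Matrix.fromBlocks (P.ρ p σ) 0 0 (Q.ρ p σ) * Matrix.fromBlocks (P.ρ p τ) 0 0 (Q.ρ p τ) :=
      hmul σ τ
    rw [Matrix.fromBlocks_multiply] at h
    have h2 := (Matrix.fromBlocks_inj.1 h).1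
    rw [Matrix.mul_zero, add_zero] at h2
    exact h2

theorem rep_summand {M N : Motive F} (p : ℕ) [Fact p.Prime]
    (ρ : GK F →* Matrix M.κ M.κ ℚ_[p]) (e : ∀ σ, ρ σ = M.ρ p σ) (h : IsSummand N M) :
    ∃ ρ' : GK F →* Matrix N.κ N.κ ℚ_[p], (∀ σ, ρ' σ = N.ρ p σ) ∧
      (N.obj ρ').IsSummand (M.obj ρ) := by
  obtain ⟨i, r, ⟨hi, hi'⟩, ⟨hr, hr'⟩, h⟩ := h
  have hri : padic p r * padic p i = 1 := by
    unfold padic
    rw [← Matrix.map_mul, h]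
    exact Matrix.map_one _ (map_zero _) (map_one _)
  have hi2 : ∀ σ, ρ σ * padic p i = padic p i * N.ρ p σ := fun σ => by
    rw [e]
    exact hi' p σ trivial
  have key : ∀ σ, N.ρ p σ = padic p r * (ρ σ * padic p i) := fun σ => by
    rw [hi2, ← Matrix.mul_assoc, hri, Matrix.one_mul]
  refine ⟨{ toFun := N.ρ p, map_one' := ?_, map_mul' := fun σ τ => ?_ }, fun _ => rfl,
    i, r, ⟨fun z hz => hi z hz, fun σ => ?_⟩, ⟨fun z hz => hr z hz, fun σ => ?_⟩, h⟩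
  · rw [key, map_one, Matrix.one_mul, hri]
  · rw [key (σ * τ), map_mul, Matrix.mul_assoc, hi2 τ, ← Matrix.mul_assoc (ρ σ), hi2 σ,
      Matrix.mul_assoc, ← Matrix.mul_assoc, hri, Matrix.one_mul]
  · exact hi2 σ
  · show N.ρ p σ * padic p r = padic p r * ρ σ
    rw [e]
    exact hr' p σ trivial

theorem generated_at {V : Family F} {P M : Motive F} (p : ℕ) [Fact p.Prime]
    (ρP : GK F →* Matrix P.κ P.κ ℚ_[p]) (hP : ∀ σ, ρP σ = P.ρ p σ) (hM : Generated V P M) :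
    ∃ ρ : GK F →* Matrix M.κ M.κ ℚ_[p], (∀ σ, ρ σ = M.ρ p σ) ∧
      (toFam V p).GeneratedWith (P.obj ρP) (M.obj ρ) := by
  induction hM with
  | extra => exact ⟨ρP, hP, HKFam.GeneratedWith.extra⟩
  | base t i hi =>
    exact ⟨(V.E p).G t i, fun _ => rfl,
      HKFam.GeneratedWith.base t i (hi.trans_eq ((V.E p).D.hd t).symm)⟩
  | tate =>
    refine ⟨(Obj.tate (MT.cyc F p)).ρ, fun σ => ?_, HKFam.GeneratedWith.tate⟩
    show Matrix.scalar (Fin 1) (MT.cyc F p σ) = Run7.h869.HG.cyc F p σ • 1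
    rw [Matrix.scalar_apply, ← Matrix.smul_one_eq_diagonal]
    rfl
  | sum M N _ _ h1 h2 =>
    obtain ⟨ρ₁, e₁, g₁⟩ := h1
    obtain ⟨ρ₂, e₂, g₂⟩ := h2
    refine ⟨((M.obj ρ₁).sum (N.obj ρ₂)).ρ, fun σ => ?_, HKFam.GeneratedWith.sum _ _ g₁ g₂⟩
    show Matrix.fromBlocks (ρ₁ σ) 0 0 (ρ₂ σ) = Matrix.fromBlocks (M.ρ p σ) 0 0 (N.ρ p σ)
    rw [e₁, e₂]
  | tensor M N _ _ h1 h2 =>
    obtain ⟨ρ₁, e₁, g₁⟩ := h1
    obtain ⟨ρ₂, e₂, g₂⟩ := h2
    refine ⟨((M.obj ρ₁).tensor (N.obj ρ₂)).ρ, fun σ => ?_,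
      HKFam.GeneratedWith.tensor _ _ g₁ g₂⟩
    show Matrix.kroneckerMap (fun x y => x * y) (ρ₁ σ) (ρ₂ σ) =
      Matrix.kroneckerMap (fun x y => x * y) (M.ρ p σ) (N.ρ p σ)
    rw [e₁, e₂]
  | dual M _ h1 =>
    obtain ⟨ρ₁, e₁, g₁⟩ := h1
    refine ⟨(M.obj ρ₁).dual.ρ, fun σ => ?_, HKFam.GeneratedWith.dual _ g₁⟩
    show (ρ₁ σ⁻¹)ᵀ = (M.ρ p σ⁻¹)ᵀ
    rw [e₁]
  | summand M N _ h h1 =>
    obtain ⟨ρ₁, e₁, g₁⟩ := h1
    obtain ⟨ρ₂, e₂, h2⟩ := rep_summand p ρ₁ e₁ h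
    exact ⟨ρ₂, e₂, HKFam.GeneratedWith.summand _ _ g₁ h2⟩

/-- **Fixed vectors** in the realizations of generated motives. -/
theorem fixed_generated {V : Family F} [Nonempty V.T] {P M : Motive F}
    (h : (P.sum (two V)).MumfordTate) (hM : Generated V P M) (p : ℕ) [Fact p.Prime] :
    (∃ ρ : GK F →* Matrix M.κ M.κ ℚ_[p], ∀ σ, ρ σ = M.ρ p σ) ∧
    (∀ z : ℂ, z ≠ 0 → (M.h z).det ≠ 0) ∧
    (∀ (Δ : Subgroup (GK F)), Δ.FiniteIndex → ∀ x : M.κ → ℚ_[p], (∀ σ ∈ Δ, M.ρ p σ *ᵥ x = x) →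
      x ∈ vecSpan ℚ_[p] {v : M.κ → ℚ | ∀ z : ℂ, z ≠ 0 → M.h z *ᵥ (fun i => (v i : ℂ)) =
        fun i => (v i : ℂ)}) ∧
    ∃ Δ : Subgroup (GK F), Δ.FiniteIndex ∧ ∀ x ∈ vecSpan ℚ_[p] {v : M.κ → ℚ | ∀ z : ℂ, z ≠ 0 →
      M.h z *ᵥ (fun i => (v i : ℂ)) = fun i => (v i : ℂ)}, ∀ σ ∈ Δ, M.ρ p σ *ᵥ x = x := by
  obtain ⟨C, _, _, a, b, e, he, he1, hh, hp⟩ := h
  obtain ⟨hone, hmul, hn, hg⟩ := hp p
  obtain ⟨ρP, hP⟩ := rep_left p hone hmul
  have hbase : (fun σ => ((P.obj ρP).sum (toFam V p).two).ρ σ) = (P.sum (two V)).ρ p := by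
    funext σ
    show Matrix.fromBlocks (ρP σ) 0 0 _ = Matrix.fromBlocks (P.ρ p σ) 0 0 _
    rw [hP]
    rfl
  have h0 : GoodR (∑ c, (a c : ℂ) • e c) (∑ c, (b c : ℂ) • e c) ((P.sum (two V)).ρ p)
      ((P.obj ρP).sum (toFam V p).two).h (fun σ => ((P.obj ρP).sum (toFam V p).two).ρ σ) := by
    rw [hbase]
    exact good_refl hn a b e he he1 hh
  obtain ⟨ρ, hρ, hgen⟩ := generated_at p ρP hP hM
  have h1 := good_with (toFam V p) (P := P.obj ρP) (M := M.obj ρ)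
    (good_summand h0 (summand_left (P.obj ρP) (toFam V p).two))
    (good_summand h0 (summand_right (P.obj ρP) (toFam V p).two)) hgen
  have hdet := det_goodR h1
  obtain ⟨E, hE, hN, C', _, _, a', b', e', he', hs', hh', hD, hD'⟩ := h1
  have h2 := galLie_goodR hone hmul hn hg (M.obj ρ).ρ E hE hN
  rw [hD, hD'] at h2
  have e1 : ∀ σ, (M.obj ρ).ρ σ = M.ρ p σ := hρ
  obtain ⟨k1, Δ, hΔ, k2⟩ := fixed_vec (M.obj ρ).ρ (fun N => by
    obtain ⟨Δ, hΔ, hN⟩ := hN N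
    exact ⟨Δ, hΔ, fun σ hσ => (hN σ hσ).1⟩) a' b' e' he' hs' (M.obj ρ).h hh' h2
  refine ⟨⟨ρ, hρ⟩, hdet, fun Δ hΔ x hx => k1 Δ hΔ x fun σ hσ => ?_,
    Δ, hΔ, fun x hx σ hσ => ?_⟩
  · rw [e1]
    exact hx σ hσ
  · have h3 := k2 x hx σ hσ
    rw [e1] at h3
    exact h3

end

end Run7.h457.PM
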