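import Pool.Agent.Run7.h869.HG.Main

/-!
# Pure motives generated by hyperkähler varieties and a further motive: definitions
-/

set_option autoImplicit false

namespace Run7.h457.PM

open Matrix NumberField Run7.h457.MT Pool.Agent.W401.Cheb
open Run7.h869.HG (Family)

noncomputable section

/-- The realizations of a pure motive over the field `F` (contained in `ℂ`): the rational cohomology
`ℚ^κ` with its Hodge structure, given by the action `h` of the group `ℂ^×` on `ℂ^κ` (by
`z ^ (-p) * conj z ^ (-q)` on the part of type `(p, q)`), and for each prime number `p` the action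
`ρ p` of the Galois group of `F` on the `p`-adic realization `ℚ_p^κ` (Artin's comparison). -/
structure Motive (F : Type) [Field F] where
  κ : Type
  [fin : Fintype κ]
  [dec : DecidableEq κ]
  h : ℂ → Matrix κ κ ℂ
  ρ : ∀ (p : ℕ) [Fact p.Prime], GK F → Matrix κ κ ℚ_[p]

attribute [instance] Motive.fin Motive.dec

variable {F : Type} [Field F]

/-- The direct sum. -/
def Motive.sum (M N : Motive F) : Motive F where
  κ := M.κ ⊕ N.κ
  h z := Matrix.fromBlocks (M.h z) 0 0 (N.h z)
  ρ p _ σ := Matrix.fromBlocks (M.ρ p σ) 0 0 (N.ρ p σ)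

/-- The tensor product. -/
def Motive.tensor (M N : Motive F) : Motive F where
  κ := M.κ × N.κ
  h z := Matrix.kroneckerMap (fun x y => x * y) (M.h z) (N.h z)
  ρ p _ σ := Matrix.kroneckerMap (fun x y => x * y) (M.ρ p σ) (N.ρ p σ)

/-- The dual. -/
def Motive.dual (M : Motive F) : Motive F where
  κ := M.κ
  h z := ((M.h z)⁻¹)ᵀ
  ρ p _ σ := (M.ρ p σ⁻¹)ᵀ

/-- The Tate motive `ℚ(1)`; the Galois group acts by the cyclotomic character. -/
def Motive.tate (F : Type) [Field F] : Motive F where
  κ := Fin 1
  h z := (z * starRingEnd ℂ z) • 1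
  ρ p _ σ := Run7.h869.HG.cyc F p σ • 1

/-- The motive `H^i(X_t)` of a hyperkähler variety of the family `V`. -/
def hyperkaehler (V : Family F) (t : V.T) (i : ℕ) : Motive F where
  κ := Fin ((V.X t).B.n i)
  h := ((V.X t).W.V i).h
  ρ p _ σ := (V.E p).G t i σ

/-- The sum of the `H²(X_t)`. -/
def two (V : Family F) : Motive F where
  κ := Σ t, Fin ((V.X t).B.n 2)
  h z := Matrix.blockDiagonal' fun t => ((V.X t).W.V 2).h z
  ρ p _ σ := Matrix.blockDiagonal' fun t => (V.E p).G t 2 σ

/-- The rational matrix `f` is a morphism of Hodge structures from `M` to `N`. -/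
def IsHodgeHom (M N : Motive F) (f : Matrix N.κ M.κ ℚ) : Prop :=
  ∀ z : ℂ, z ≠ 0 → N.h z * f.map (algebraMap ℚ ℂ) = f.map (algebraMap ℚ ℂ) * M.h z

/-- The `p`-adic matrix `φ` is a morphism from `M_p` to `N_p` of representations of the subgroup
`Δ` of the Galois group. -/
def IsGaloisHom (M N : Motive F) (p : ℕ) [Fact p.Prime] (Δ : Subgroup (GK F))
    (φ : Matrix N.κ M.κ ℚ_[p]) : Prop :=
  ∀ σ ∈ Δ, N.ρ p σ * φ = φ * M.ρ p σ

/-- The matrix `f`, with `p`-adic coefficients. -/
def padic (p : ℕ) [Fact p.Prime] {κ κ' : Type} (f : Matrix κ κ' ℚ) : Matrix κ κ' ℚ_[p] :=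
  f.map (algebraMap ℚ ℚ_[p])

/-- `N` is a direct summand of `M` (for example, isomorphic to `M`): `i` and `r` are morphisms. -/
def IsSummand (N M : Motive F) : Prop :=
  ∃ (i : Matrix M.κ N.κ ℚ) (r : Matrix N.κ M.κ ℚ),
    (IsHodgeHom N M i ∧ ∀ (p : ℕ) [Fact p.Prime], IsGaloisHom N M p ⊤ (padic p i)) ∧
    (IsHodgeHom M N r ∧ ∀ (p : ℕ) [Fact p.Prime], IsGaloisHom M N p ⊤ (padic p r)) ∧ r * i = 1

/-- `M` is an object of the tannakian category generated by the motive `P`, by the motives `H^i(X_t)`
of the hyperkähler varieties of the family `V`, and by the Tate motive: the smallest class which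
contains them and is closed under direct sums, tensor products, duals and direct summands. -/
inductive Generated (V : Family F) (P : Motive F) : Motive F → Prop
  | extra : Generated V P P
  | base (t : V.T) (i : ℕ) (hi : i ≤ (V.X t).d) : Generated V P (hyperkaehler V t i)
  | tate : Generated V P (Motive.tate F)
  | sum (M N : Motive F) : Generated V P M → Generated V P N → Generated V P (M.sum N)
  | tensor (M N : Motive F) : Generated V P M → Generated V P N → Generated V P (M.tensor N)
  | dual (M : Motive F) : Generated V P M → Generated V P M.dual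
  | summand (M N : Motive F) : Generated V P M → IsSummand N M → Generated V P N

/-- The Mumford-Tate conjecture for `M`, for all `p`, in the form of Lie algebras: the action of the
group `ℂ^×` is given by a decomposition of `ℂ^κ` (with the projections `e c`) into pieces of types
`(a c, b c)`, the Galois group acts continuously (by matrices near `1` on subgroups of finite index),
and the Lie algebra of its image is the `ℚ_p`-span of the Lie algebra of the Mumford-Tate group. -/
def Motive.MumfordTate (M : Motive F) : Prop :=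
  ∃ (C : Type) (_ : Fintype C) (_ : DecidableEq C) (a b : C → ℤ) (e : C → Matrix M.κ M.κ ℂ),
    (∀ c c', e c * e c' = if c = c' then e c else 0) ∧ ∑ c, e c = 1 ∧
    (∀ z : ℂ, z ≠ 0 → M.h z = ∑ c, (z ^ (-a c) * starRingEnd ℂ z ^ (-b c)) • e c) ∧
    ∀ (p : ℕ) [Fact p.Prime], M.ρ p 1 = 1 ∧ (∀ σ τ, M.ρ p (σ * τ) = M.ρ p σ * M.ρ p τ) ∧
      (∀ N : ℕ, ∃ Δ : Subgroup (GK F), Δ.FiniteIndex ∧ ∀ σ ∈ Δ, NearOne N (M.ρ p σ)) ∧
      galLie (M.ρ p) = ratSpan ℚ_[p]
        (mtLie (∑ c, (a c : ℂ) • e c) (∑ c, (b c : ℂ) • e c) : Set (Matrix M.κ M.κ ℚ))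

/-! ## Homomorphisms -/

/-- The space `Hom_Δ(M_p, N_p)` (these matrices form a subspace). -/
def galHoms (M N : Motive F) (p : ℕ) [Fact p.Prime] (Δ : Subgroup (GK F)) :
    Submodule ℚ_[p] (Matrix N.κ M.κ ℚ_[p]) :=
  Submodule.span ℚ_[p] {φ | IsGaloisHom M N p Δ φ}

/-- The space of all morphisms of Hodge structures from `M` to `N` (these matrices form a
subspace). -/
def hodgeHoms (M N : Motive F) : Submodule ℚ (Matrix N.κ M.κ ℚ) :=
  Submodule.span ℚ {f | IsHodgeHom M N f}

/-- The `ℚ_p`-span of the morphisms of Hodge structures. -/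
def hodgeSpan (M N : Motive F) (p : ℕ) [Fact p.Prime] : Submodule ℚ_[p] (Matrix N.κ M.κ ℚ_[p]) :=
  Submodule.span ℚ_[p] {φ | ∃ f, IsHodgeHom M N f ∧ φ = padic p f}

/-- The homomorphisms of pure motives from `M` to `N` over the algebraic closure of `F`, given by
algebraic correspondences modulo homological equivalence: a `ℚ`-vector space `A` with an injective map
`betti` to the space of morphisms of Hodge structures; the Galois group acts by conjugation of the
correspondences (`act`), and this is compatible with the action on the `p`-adic realizations. -/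
structure Homs (M N : Motive F) where
  A : Type
  [grp : AddCommGroup A]
  [mod : Module ℚ A]
  betti : A →ₗ[ℚ] Matrix N.κ M.κ ℚ
  inj : Function.Injective betti
  hodge : ∀ a, IsHodgeHom M N (betti a)
  act : GK F → A →ₗ[ℚ] A
  compat : ∀ (p : ℕ) [Fact p.Prime] (σ : GK F) (a : A),
    N.ρ p σ * padic p (betti a) = padic p (betti (act σ a)) * M.ρ p σ

attribute [instance] Homs.grp Homs.mod

variable {M N : Motive F}

/-- The Tate conjecture for `M` and `N`, for the prime `p` and the extension of `F` which belongs to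
the subgroup `Δ`. The map `ρ_p : Hom(M, N) ⊗ ℚ_p → Hom_Δ(M_p, N_p)` is injective: homomorphisms which
are linearly independent over `ℚ` have linearly independent realizations; and it is surjective:
`Hom_Δ(M_p, N_p)` is spanned by the homomorphisms of motives over the extension, which are the
homomorphisms that are invariant under `Δ`. -/
def Homs.Tate (H : Homs M N) (p : ℕ) [Fact p.Prime] (Δ : Subgroup (GK F)) : Prop :=
  (∀ (n : ℕ) (a : Fin n → H.A), LinearIndependent ℚ a →
    LinearIndependent ℚ_[p] fun i => padic p (H.betti (a i))) ∧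
  galHoms M N p Δ =
    Submodule.span ℚ_[p] {φ | ∃ a, (∀ σ ∈ Δ, H.act σ a = a) ∧ φ = padic p (H.betti a)}

/-- All morphisms of Hodge structures are algebraic (the Hodge conjecture for `Hom(M, N)`). -/
def Homs.Hodge (H : Homs M N) : Prop :=
  ∀ f, IsHodgeHom M N f → ∃ a, H.betti a = f

/-- `M` and `N` are isomorphic as Hodge structures. -/
def HodgeIso (M N : Motive F) : Prop :=
  ∃ (f : Matrix N.κ M.κ ℚ) (g : Matrix M.κ N.κ ℚ),
    IsHodgeHom M N f ∧ IsHodgeHom N M g ∧ g * f = 1 ∧ f * g = 1

/-- `M_p` and `N_p` are isomorphic as representations of the subgroup `Δ` of the Galois group. -/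
def GaloisIso (M N : Motive F) (p : ℕ) [Fact p.Prime] (Δ : Subgroup (GK F)) : Prop :=
  ∃ (φ : Matrix N.κ M.κ ℚ_[p]) (ψ : Matrix M.κ N.κ ℚ_[p]),
    IsGaloisHom M N p Δ φ ∧ IsGaloisHom N M p Δ ψ ∧ ψ * φ = 1 ∧ φ * ψ = 1

end

end Run7.h457.PM
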