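import Pool.Agent.Run7.h457.PM.Conv

/-!
# Homomorphisms between the realizations
-/

set_option autoImplicit false
set_option linter.unusedSectionVars false

namespace Run7.h457.PM

open Matrix NumberField Run7.h457.MT Pool.Agent.W401.Cheb TensorProduct
open Run7.h869.HG (HKC Family ladic mem_of_ladic finrank_vecSpan)
open Run7.h475.MT (t_SPANV)

noncomputable section

/-! ## Matrices as vectors -/

section vec

variable {κ κ' : Type} [Fintype κ] [DecidableEq κ] [Fintype κ'] [DecidableEq κ']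

/-- A matrix as a vector. -/
def vecL (K : Type) [Field K] (κ κ' : Type) : Matrix κ' κ K ≃ₗ[K] (κ × κ' → K) where
  toFun A := A.vec
  invFun v i j := v (j, i)
  map_add' A B := Matrix.vec_add A B
  map_smul' c A := Matrix.vec_smul c A
  left_inv _ := rfl
  right_inv _ := rfl

theorem vecL_apply {K : Type} [Field K] (A : Matrix κ' κ K) : vecL K κ κ' A = A.vec := rfl

theorem kron_vec {K : Type} [Field K] (A : Matrix κ κ K) (B : Matrix κ' κ' K) (X : Matrix κ' κ K) :
    Matrix.kroneckerMap (fun x y => x * y) Aᵀ B *ᵥ X.vec = (B * X * A).vec := by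
  have h := Matrix.kronecker_mulVec_vec B X Aᵀ
  rw [Matrix.transpose_transpose] at h
  exact h

/-- The `p`-adic vectors of the vectors of rational matrices. -/
theorem span_vec (p : ℕ) [Fact p.Prime] (W : Submodule ℚ (Matrix κ' κ ℚ)) (φ : Matrix κ' κ ℚ_[p]) :
    φ ∈ Submodule.span ℚ_[p] (padic p '' (W : Set (Matrix κ' κ ℚ))) ↔
      φ.vec ∈ vecSpan ℚ_[p] ((W.map (vecL ℚ κ κ').toLinearMap : Submodule ℚ (κ × κ' → ℚ)) :
        Set (κ × κ' → ℚ)) := by
  have h : vecSpan ℚ_[p] ((W.map (vecL ℚ κ κ').toLinearMap : Submodule ℚ (κ × κ' → ℚ)) :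
        Set (κ × κ' → ℚ)) =
      (Submodule.span ℚ_[p] (padic p '' (W : Set (Matrix κ' κ ℚ)))).map
        (vecL ℚ_[p] κ κ').toLinearMap := by
    rw [Submodule.map_span, ← Set.image_comp]
    unfold vecSpan
    congr 1
    ext v
    constructor
    · rintro ⟨w, ⟨f, hf, rfl⟩, rfl⟩
      exact ⟨f, hf, rfl⟩
    · rintro ⟨f, hf, rfl⟩
      exact ⟨_, ⟨f, hf, rfl⟩, rfl⟩
  rw [h]
  constructor
  · intro hφ
    exact ⟨φ, hφ, rfl⟩
  · rintro ⟨φ', hφ', he⟩
    have : φ' = φ := (vecL ℚ_[p] κ κ').injective he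
    rwa [← this]

/-- A matrix lies in the span of a rational space of matrices if all functionals map it to the
space. -/
theorem mem_span_iff (p : ℕ) [Fact p.Prime] (W : Submodule ℚ (Matrix κ' κ ℚ))
    (φ : Matrix κ' κ ℚ_[p]) :
    φ ∈ Submodule.span ℚ_[p] (padic p '' (W : Set (Matrix κ' κ ℚ))) ↔
      ∀ u : ℚ_[p] →ₗ[ℚ] ℚ, φ.map u ∈ W := by
  rw [span_vec, t_SPANV]
  refine forall_congr' fun u => ?_
  constructor
  · rintro ⟨f, hf, he⟩
    have h1 : f = φ.map u := (vecL ℚ κ κ').injective (he.trans rfl)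
    rwa [← h1]
  · intro h
    exact ⟨φ.map u, h, rfl⟩

/-- A rational matrix in the span of a rational space of matrices lies in the space. -/
theorem rat_mem (p : ℕ) [Fact p.Prime] (W : Submodule ℚ (Matrix κ' κ ℚ)) (f : Matrix κ' κ ℚ)
    (h : padic p f ∈ Submodule.span ℚ_[p] (padic p '' (W : Set (Matrix κ' κ ℚ)))) : f ∈ W := by
  rw [span_vec] at h
  have h1 : ladic p (f.vec) ∈ vecSpan ℚ_[p] ((W.map (vecL ℚ κ κ').toLinearMap :
      Submodule ℚ (κ × κ' → ℚ)) : Set (κ × κ' → ℚ)) := h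
  obtain ⟨g, hg, he⟩ := mem_of_ladic _ _ h1
  have h2 : g = f := (vecL ℚ κ κ').injective (he.trans rfl)
  rwa [← h2]

/-- The dimension of the span of a rational space of matrices. -/
theorem finrank_span (p : ℕ) [Fact p.Prime] (W : Submodule ℚ (Matrix κ' κ ℚ)) :
    Module.finrank ℚ_[p] (Submodule.span ℚ_[p] (padic p '' (W : Set (Matrix κ' κ ℚ)))) =
      Module.finrank ℚ W := by
  have h : (Submodule.span ℚ_[p] (padic p '' (W : Set (Matrix κ' κ ℚ)))).map
      (vecL ℚ_[p] κ κ').toLinearMap = vecSpan ℚ_[p] ((W.map (vecL ℚ κ κ').toLinearMap :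
        Submodule ℚ (κ × κ' → ℚ)) : Set (κ × κ' → ℚ)) := by
    ext v
    constructor
    · rintro ⟨φ, hφ, rfl⟩
      exact (span_vec p W φ).1 hφ
    · intro hv
      refine ⟨(vecL ℚ_[p] κ κ').symm v, (span_vec p W _).2 ?_, (vecL ℚ_[p] κ κ').apply_symm_apply v⟩
      exact hv
  have h1 := LinearEquiv.finrank_eq ((vecL ℚ κ κ').submoduleMap W)
  have h1' := LinearEquiv.finrank_eq ((vecL ℚ_[p] κ κ').submoduleMap
      (Submodule.span ℚ_[p] (padic p '' (W : Set (Matrix κ' κ ℚ)))))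
  have h2 := finrank_vecSpan (ℓ := p) (W.map (vecL ℚ κ κ').toLinearMap)
  rw [← h] at h2
  exact h1'.trans (h2.trans h1.symm)

theorem inv_iff {R : Type} [Field R] (e : κ' ≃ κ) (X : Matrix κ' κ R) :
    (∃ Y : Matrix κ κ' R, Y * X = 1 ∧ X * Y = 1) ↔ (X.submatrix e.symm id).det ≠ 0 := by
  constructor
  · rintro ⟨Y, hY, hY'⟩ h0
    have h3 : (Y.submatrix id e.symm) * (X.submatrix e.symm id) = 1 := by
      have := Matrix.submatrix_mul_equiv Y X id e.symm id
      rw [this, hY]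
      exact Matrix.submatrix_id_id _
    have h4 := congrArg Matrix.det h3
    rw [Matrix.det_mul, h0, mul_zero, Matrix.det_one] at h4
    exact zero_ne_one h4
  · intro h0
    obtain ⟨Z, hZ⟩ : ∃ Z : Matrix κ κ R, Z = X.submatrix e.symm id := ⟨_, rfl⟩
    rw [← hZ] at h0
    have hX : X = Z.submatrix e id := by
      rw [hZ, Matrix.submatrix_submatrix]
      simp
    have hu : IsUnit Z.det := isUnit_iff_ne_zero.2 h0
    refine ⟨Z⁻¹.submatrix id e, ?_, ?_⟩
    · rw [hX]
      have := Matrix.submatrix_mul_equiv Z⁻¹ Z id e id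
      rw [this, Matrix.nonsing_inv_mul _ hu]
      exact Matrix.submatrix_id_id _
    · rw [hX]
      have := Matrix.submatrix_mul_equiv Z Z⁻¹ e (Equiv.refl κ) e
      rw [Equiv.coe_refl] at this
      rw [this, Matrix.mul_nonsing_inv _ hu]
      exact Matrix.submatrix_one_equiv e

/-- **Specialization of coefficients.** If the span of a rational space of matrices contains an
invertible matrix, then the space contains an invertible matrix. -/
theorem exists_inv (p : ℕ) [Fact p.Prime] (W : Submodule ℚ (Matrix κ' κ ℚ))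
    (φ : Matrix κ' κ ℚ_[p]) (ψ : Matrix κ κ' ℚ_[p]) (h1 : ψ * φ = 1) (h2 : φ * ψ = 1)
    (hφ : φ ∈ Submodule.span ℚ_[p] (padic p '' (W : Set (Matrix κ' κ ℚ)))) :
    ∃ f ∈ W, ∃ g : Matrix κ κ' ℚ, g * f = 1 ∧ f * g = 1 := by
  have hcard : Fintype.card κ' = Fintype.card κ := Matrix.square_of_invertible φ ψ h2 h1
  obtain ⟨e⟩ : Nonempty (κ' ≃ κ) := ⟨Fintype.equivOfCardEq hcard⟩
  obtain ⟨c, hc, hsum⟩ := (Finsupp.mem_span_image_iff_linearCombination ℚ_[p]).1 hφ
  -- the determinant as a polynomial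
  let S := c.support
  let A : Matrix κ κ (MvPolynomial (Matrix κ' κ ℚ) ℚ) :=
    fun i j => ∑ f ∈ S, MvPolynomial.C (f (e.symm i) j) * MvPolynomial.X f
  have hev : ∀ (R : Type) [Field R] [Algebra ℚ R] (t : Matrix κ' κ ℚ → R),
      MvPolynomial.aeval t A.det =
        ((∑ f ∈ S, t f • f.map (algebraMap ℚ R)).submatrix e.symm id).det := by
    intro R _ _ t
    rw [AlgHom.map_det]
    congr 1
    ext i j
    rw [AlgHom.mapMatrix_apply, Matrix.map_apply, Matrix.submatrix_apply, Matrix.sum_apply, map_sum]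
    refine Finset.sum_congr rfl fun f _ => ?_
    rw [map_mul, MvPolynomial.aeval_C, MvPolynomial.aeval_X, Matrix.smul_apply, Matrix.map_apply,
      smul_eq_mul, mul_comm]
    rfl
  have hφ' : (∑ f ∈ S, c f • f.map (algebraMap ℚ ℚ_[p])) = φ := by
    rw [← hsum, Finsupp.linearCombination_apply]
    rfl
  have hne : A.det ≠ 0 := by
    intro h0
    have h3 := hev ℚ_[p] fun f => c f
    rw [h0, map_zero, hφ'] at h3
    exact (inv_iff e φ).1 ⟨ψ, h1, h2⟩ h3.symm
  obtain ⟨t, ht⟩ : ∃ t : Matrix κ' κ ℚ → ℚ, MvPolynomial.eval t A.det ≠ 0 := by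
    by_contra hcon
    push Not at hcon
    exact hne (MvPolynomial.funext fun t => by rw [hcon t, map_zero])
  have h3 := hev ℚ t
  rw [MvPolynomial.aeval_eq_eval] at h3
  have h4 : (∑ f ∈ S, t f • f.map (algebraMap ℚ ℚ)) = ∑ f ∈ S, t f • f := by
    refine Finset.sum_congr rfl fun f _ => ?_
    congr 1
  refine ⟨∑ f ∈ S, t f • f, Submodule.sum_mem _ fun f hf => W.smul_mem _ (hc hf), ?_⟩
  rw [inv_iff e, ← h4, ← h3]
  exact ht

end vec

end

end Run7.h457.PM
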