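import Pool.Agent.Run7.h457.PM.Hom

/-!
# The Tate conjecture for homomorphisms of generated motives
-/

set_option autoImplicit false
set_option linter.unusedSectionVars false

namespace Run7.h457.PM

open Matrix NumberField Run7.h457.MT Pool.Agent.W401.Cheb TensorProduct
open Run7.h869.HG (HKC Family)

noncomputable section

variable {F : Type} [Field F]

/-! ## Spans of subspaces -/

theorem mem_galHoms {M N : Motive F} {p : ℕ} [Fact p.Prime] {Δ : Subgroup (GK F)}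
    {φ : Matrix N.κ M.κ ℚ_[p]} : φ ∈ galHoms M N p Δ ↔ IsGaloisHom M N p Δ φ := by
  constructor
  · intro h
    unfold galHoms at h
    induction h using Submodule.span_induction with
    | mem φ h => exact h
    | zero => exact fun σ _ => by rw [Matrix.mul_zero, Matrix.zero_mul]
    | add a b _ _ ha hb => exact fun σ hσ => by rw [Matrix.mul_add, Matrix.add_mul, ha σ hσ, hb σ hσ]
    | smul c a _ ha => exact fun σ hσ => by rw [Matrix.mul_smul, Matrix.smul_mul, ha σ hσ]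
  · exact fun h => Submodule.subset_span h

theorem mem_hodgeHoms {M N : Motive F} {f : Matrix N.κ M.κ ℚ} :
    f ∈ hodgeHoms M N ↔ IsHodgeHom M N f := by
  constructor
  · intro h
    unfold hodgeHoms at h
    induction h using Submodule.span_induction with
    | mem φ h => exact h
    | zero =>
      intro z _
      have e : (0 : Matrix N.κ M.κ ℚ).map (algebraMap ℚ ℂ) = 0 := Matrix.map_zero _ (map_zero _)
      rw [e, Matrix.mul_zero, Matrix.zero_mul]
    | add a b _ _ ha hb =>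
      intro z hz
      have e : (a + b).map (algebraMap ℚ ℂ) = a.map (algebraMap ℚ ℂ) + b.map (algebraMap ℚ ℂ) :=
        Matrix.map_add _ (map_add _) a b
      rw [e, Matrix.mul_add, Matrix.add_mul, ha z hz, hb z hz]
    | smul c a _ ha =>
      intro z hz
      have e : (c • a).map (algebraMap ℚ ℂ) = algebraMap ℚ ℂ c • a.map (algebraMap ℚ ℂ) := by
        ext i j
        simp
      rw [e, Matrix.mul_smul, Matrix.smul_mul, ha z hz]
  · exact fun h => Submodule.subset_span h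

theorem hodgeSpan_eq (M N : Motive F) (p : ℕ) [Fact p.Prime] : hodgeSpan M N p =
    Submodule.span ℚ_[p] (padic p '' (hodgeHoms M N : Set (Matrix N.κ M.κ ℚ))) := by
  unfold hodgeSpan
  congr 1
  ext φ
  constructor
  · rintro ⟨f, hf, rfl⟩
    exact ⟨f, mem_hodgeHoms.2 hf, rfl⟩
  · rintro ⟨f, hf, rfl⟩
    exact ⟨f, mem_hodgeHoms.1 hf, rfl⟩

/-! ## The realizations are invertible -/

/-- The Galois group acts on the `p`-adic realization. -/
def Motive.Rep (M : Motive F) (p : ℕ) [Fact p.Prime] : Prop :=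
  ∃ ρ : GK F →* Matrix M.κ M.κ ℚ_[p], ∀ σ, ρ σ = M.ρ p σ

theorem rho_inv {M : Motive F} {p : ℕ} [Fact p.Prime] (hM : M.Rep p) (σ : GK F) :
    M.ρ p σ⁻¹ * M.ρ p σ = 1 ∧ M.ρ p σ * M.ρ p σ⁻¹ = 1 := by
  obtain ⟨ρ, hρ⟩ := hM
  rw [← hρ, ← hρ, ← map_mul, ← map_mul, inv_mul_cancel, mul_inv_cancel, map_one]
  exact ⟨rfl, rfl⟩

theorem rep {V : Family F} [Nonempty V.T] {P M : Motive F} (h : (P.sum (two V)).MumfordTate)
    (hM : Generated V P M) (p : ℕ) [Fact p.Prime] : M.Rep p :=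
  (fixed_generated h hM p).1

theorem h_inv {V : Family F} [Nonempty V.T] {P M : Motive F} (h : (P.sum (two V)).MumfordTate)
    (hM : Generated V P M) (z : ℂ) (hz : z ≠ 0) : (M.h z).det ≠ 0 :=
  have : Fact (Nat.Prime 2) := ⟨Nat.prime_two⟩
  (fixed_generated h hM 2).2.1 z hz

theorem vec_raw {K : Type} [Field K] {κ κ' : Type} [Fintype κ] [DecidableEq κ] [Fintype κ']
    [DecidableEq κ'] {A A' : Matrix κ κ K} (h1 : A' * A = 1) (h2 : A * A' = 1)
    (B : Matrix κ' κ' K) (X : Matrix κ' κ K) :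
    Matrix.kroneckerMap (fun x y => x * y) A'ᵀ B *ᵥ X.vec = X.vec ↔ B * X = X * A := by
  rw [kron_vec, Matrix.vec_inj]
  constructor
  · intro h
    conv_rhs => rw [← h]
    rw [Matrix.mul_assoc, h1, Matrix.mul_one]
  · intro h
    rw [h, Matrix.mul_assoc, h2, Matrix.mul_one]

theorem gal_vec {M N : Motive F} {p : ℕ} [Fact p.Prime] (hM : M.Rep p) (σ : GK F)
    (φ : Matrix N.κ M.κ ℚ_[p]) :
    (M.dual.tensor N).ρ p σ *ᵥ φ.vec = φ.vec ↔ N.ρ p σ * φ = φ * M.ρ p σ :=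
  vec_raw (rho_inv hM σ).1 (rho_inv hM σ).2 (N.ρ p σ) φ

theorem hodge_hom_vec {M N : Motive F} (hM : ∀ z : ℂ, z ≠ 0 → (M.h z).det ≠ 0)
    (f : Matrix N.κ M.κ ℚ) : (∀ z : ℂ, z ≠ 0 → (M.dual.tensor N).h z *ᵥ
      (fun i => ((f.vec i : ℚ) : ℂ)) = fun i => ((f.vec i : ℚ) : ℂ)) ↔ IsHodgeHom M N f := by
  refine forall₂_congr fun z hz => ?_
  have hu : IsUnit (M.h z).det := isUnit_iff_ne_zero.2 (hM z hz)
  exact vec_raw (Matrix.nonsing_inv_mul _ hu) (Matrix.mul_nonsing_inv _ hu) (N.h z)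
    (f.map (algebraMap ℚ ℂ))

/-- The Hodge vectors of `Hom(M, N)`. -/
theorem hodge_set {M N : Motive F} (hM : ∀ z : ℂ, z ≠ 0 → (M.h z).det ≠ 0) :
    {v : M.κ × N.κ → ℚ | ∀ z : ℂ, z ≠ 0 → (M.dual.tensor N).h z *ᵥ (fun i => (v i : ℂ)) =
      fun i => (v i : ℂ)} =
    (((hodgeHoms M N).map (vecL ℚ M.κ N.κ).toLinearMap : Submodule ℚ (M.κ × N.κ → ℚ)) :
      Set (M.κ × N.κ → ℚ)) := by
  ext v
  constructor
  · intro hv
    exact ⟨(vecL ℚ M.κ N.κ).symm v, mem_hodgeHoms.2 ((hodge_hom_vec hM _).1 hv), rfl⟩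
  · rintro ⟨f, hf, rfl⟩
    exact (hodge_hom_vec hM f).2 (mem_hodgeHoms.1 hf)

section main

variable {V : Family F} [Nonempty V.T] {P M N : Motive F} (h : (P.sum (two V)).MumfordTate)
  (hM : Generated V P M) (hN : Generated V P N)

include h hM hN

/-- Galois homomorphisms are linear combinations of morphisms of Hodge structures. -/
theorem gal_le (p : ℕ) [Fact p.Prime] (Δ : Subgroup (GK F)) (hΔ : Δ.FiniteIndex) :
    galHoms M N p Δ ≤ hodgeSpan M N p := by
  intro φ hφ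
  have h1 := (fixed_generated h (Generated.tensor _ _ (Generated.dual _ hM) hN) p).2.2.1 Δ hΔ φ.vec
    fun σ hσ => (gal_vec (rep h hM p) σ φ).2 (mem_galHoms.1 hφ σ hσ)
  rw [hodgeSpan_eq, span_vec, ← hodge_set (h_inv h hM)]
  exact h1

/-- The morphisms of Hodge structures are Galois homomorphisms over a finite extension. -/
theorem le_gal (p : ℕ) [Fact p.Prime] : ∃ Δ : Subgroup (GK F), Δ.FiniteIndex ∧
    hodgeSpan M N p ≤ galHoms M N p Δ := by
  obtain ⟨Δ, hΔ, h1⟩ :=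
    (fixed_generated h (Generated.tensor _ _ (Generated.dual _ hM) hN) p).2.2.2
  refine ⟨Δ, hΔ, fun φ hφ => mem_galHoms.2 fun σ hσ => ?_⟩
  rw [hodgeSpan_eq, span_vec, ← hodge_set (h_inv h hM)] at hφ
  exact (gal_vec (rep h hM p) σ φ).1 (h1 _ hφ σ hσ)

end main

/-! ## The isogeny theorem -/

theorem inv_hom {R : Type} [CommRing R] {κ κ' : Type} [Fintype κ] [DecidableEq κ] [Fintype κ']
    [DecidableEq κ'] {A : Matrix κ κ R} {B : Matrix κ' κ' R} {f : Matrix κ' κ R} {g : Matrix κ κ' R}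
    (h1 : g * f = 1) (h2 : f * g = 1) (h : B * f = f * A) : A * g = g * B := by
  calc A * g = g * f * (A * g) := by rw [h1, Matrix.one_mul]
    _ = g * (f * A) * g := by simp only [Matrix.mul_assoc]
    _ = g * (B * f) * g := by rw [h]
    _ = g * B * (f * g) := by simp only [Matrix.mul_assoc]
    _ = g * B := by rw [h2, Matrix.mul_one]

theorem map_one_of {κ κ' : Type} [Fintype κ] [DecidableEq κ] [Fintype κ']
    [DecidableEq κ'] {f : Matrix κ' κ ℚ} {g : Matrix κ κ' ℚ} (h : g * f = 1) (R : Type) [Field R]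
    [Algebra ℚ R] : g.map (algebraMap ℚ R) * f.map (algebraMap ℚ R) = 1 := by
  rw [← Matrix.map_mul, h]
  exact Matrix.map_one _ (map_zero _) (map_one _)

section main

variable {V : Family F} [Nonempty V.T] {P M N : Motive F} (h : (P.sum (two V)).MumfordTate)
  (hM : Generated V P M) (hN : Generated V P N)

include h hM hN

theorem isogeny : [HodgeIso M N,
    ∀ (p : ℕ) [Fact p.Prime], ∃ Δ : Subgroup (GK F), Δ.FiniteIndex ∧ GaloisIso M N p Δ,
    ∃ (p : ℕ) (_ : Fact p.Prime) (Δ : Subgroup (GK F)), Δ.FiniteIndex ∧ GaloisIso M N p Δ].TFAE := by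
  tfae_have 1 → 2 := by
    rintro ⟨f, g, hf, -, h1, h2⟩ p _
    obtain ⟨Δ, hΔ, hle⟩ := le_gal h hM hN p
    have h3 : IsGaloisHom M N p Δ (padic p f) :=
      mem_galHoms.1 (hle (Submodule.subset_span ⟨f, hf, rfl⟩))
    have h4 : padic p g * padic p f = 1 := map_one_of h1 ℚ_[p]
    have h5 : padic p f * padic p g = 1 := map_one_of h2 ℚ_[p]
    exact ⟨Δ, hΔ, padic p f, padic p g, h3, fun σ hσ => inv_hom h4 h5 (h3 σ hσ), h4, h5⟩
  tfae_have 2 → 3 := by
    intro h1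
    have : Fact (Nat.Prime 2) := ⟨Nat.prime_two⟩
    obtain ⟨Δ, h2⟩ := h1 2
    exact ⟨2, ⟨Nat.prime_two⟩, Δ, h2⟩
  tfae_have 3 → 1 := by
    rintro ⟨p, _, Δ, hΔ, φ, ψ, hφ, -, h1, h2⟩
    have h0 := gal_le h hM hN p Δ hΔ (mem_galHoms.2 hφ)
    rw [hodgeSpan_eq] at h0
    obtain ⟨f, hf, g, h3, h4⟩ := exists_inv p (hodgeHoms M N) φ ψ h1 h2 h0
    refine ⟨f, g, mem_hodgeHoms.1 hf, fun z hz => ?_, h3, h4⟩
    exact inv_hom (map_one_of h3 ℂ) (map_one_of h4 ℂ) (mem_hodgeHoms.1 hf z hz)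
  tfae_finish

end main

/-! ## Cycles -/

section cycles

variable {M N : Motive F} (H : Homs M N)

/-- The homomorphisms over an extension. -/
def Homs.over (H : Homs M N) (Δ : Subgroup (GK F)) : Submodule ℚ H.A where
  carrier := {a | ∀ σ ∈ Δ, H.act σ a = a}
  zero_mem' := fun σ _ => map_zero _
  add_mem' := fun ha hb σ hσ => by rw [map_add, ha σ hσ, hb σ hσ]
  smul_mem' := fun c a ha σ hσ => by rw [map_smul, ha σ hσ]

/-- The rational space of matrices of the homomorphisms over an extension. -/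
def Homs.W (H : Homs M N) (Δ : Subgroup (GK F)) : Submodule ℚ (Matrix N.κ M.κ ℚ) :=
  (H.over Δ).map H.betti

/-- The rational space of matrices of all homomorphisms. -/
def Homs.B (H : Homs M N) : Submodule ℚ (Matrix N.κ M.κ ℚ) :=
  LinearMap.range H.betti

theorem Homs.mem_W {Δ : Subgroup (GK F)} {f : Matrix N.κ M.κ ℚ} :
    f ∈ H.W Δ ↔ ∃ a, (∀ σ ∈ Δ, H.act σ a = a) ∧ H.betti a = f :=
  Iff.rfl

/-- The map `ρ_p` is injective. -/
theorem Homs.injective (p : ℕ) [Fact p.Prime] (n : ℕ) (a : Fin n → H.A)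
    (ha : LinearIndependent ℚ a) :
    LinearIndependent ℚ_[p] fun i => padic p (H.betti (a i)) := by
  rw [Fintype.linearIndependent_iff] at ha ⊢
  intro c hc i
  rw [← Module.forall_dual_apply_eq_zero_iff ℚ (c i)]
  intro u
  refine ha (fun i => u (c i)) (H.inj ?_) i
  rw [map_sum, map_zero]
  ext j k
  have h1 := congrArg u (congrFun (congrFun hc j) k)
  rw [Matrix.sum_apply, map_sum] at h1
  rw [Matrix.sum_apply]
  refine Eq.trans (Finset.sum_congr rfl fun i _ => ?_) (h1.trans ?_)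
  · rw [map_smul]
    show u (c i) * H.betti (a i) j k = u (c i * algebraMap ℚ ℚ_[p] (H.betti (a i) j k))
    have e : c i * algebraMap ℚ ℚ_[p] (H.betti (a i) j k) = (H.betti (a i) j k) • c i := by
      rw [Algebra.smul_def, mul_comm]
    rw [e, map_smul, smul_eq_mul, mul_comm]
  · rw [Matrix.zero_apply, map_zero]
    rfl

theorem Homs.span_eq (p : ℕ) [Fact p.Prime] (Δ : Subgroup (GK F)) :
    Submodule.span ℚ_[p] {φ | ∃ a, (∀ σ ∈ Δ, H.act σ a = a) ∧ φ = padic p (H.betti a)} =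
      Submodule.span ℚ_[p] (padic p '' (H.W Δ : Set (Matrix N.κ M.κ ℚ))) := by
  congr 1
  ext φ
  constructor
  · rintro ⟨a, ha, rfl⟩
    exact ⟨H.betti a, ⟨a, ha, rfl⟩, rfl⟩
  · rintro ⟨_, ⟨a, ha, rfl⟩, rfl⟩
    exact ⟨a, ha, rfl⟩

theorem Homs.W_le (p : ℕ) [Fact p.Prime] (Δ : Subgroup (GK F)) :
    Submodule.span ℚ_[p] (padic p '' (H.W Δ : Set (Matrix N.κ M.κ ℚ))) ≤ galHoms M N p Δ := by
  rw [Submodule.span_le]
  rintro _ ⟨f, hf, rfl⟩
  obtain ⟨a, ha, rfl⟩ := H.mem_W.1 hf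
  exact mem_galHoms.2 fun σ hσ => by rw [H.compat p σ a, ha σ hσ]

/-- The Tate conjecture in terms of spans. -/
theorem Homs.tate_iff (p : ℕ) [Fact p.Prime] (Δ : Subgroup (GK F)) :
    H.Tate p Δ ↔ galHoms M N p Δ ≤
      Submodule.span ℚ_[p] (padic p '' (H.W Δ : Set (Matrix N.κ M.κ ℚ))) := by
  unfold Homs.Tate
  rw [H.span_eq]
  exact ⟨fun h => h.2.le, fun h => ⟨H.injective p, le_antisymm h (H.W_le p Δ)⟩⟩

/-- A formula for the action on the homomorphisms. -/
theorem Homs.act_key (p : ℕ) [Fact p.Prime] (hM : M.Rep p) (σ : GK F) (φ : Matrix N.κ M.κ ℚ_[p])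
    (hφ : φ ∈ Submodule.span ℚ_[p] (padic p '' (H.B : Set (Matrix N.κ M.κ ℚ)))) :
    ∀ u : ℚ_[p] →ₗ[ℚ] ℚ, ∃ a : H.A, H.betti a = φ.map u ∧
      H.betti (H.act σ a) = (N.ρ p σ * φ * M.ρ p σ⁻¹).map u := by
  induction hφ using Submodule.span_induction with
  | mem φ hφ =>
    obtain ⟨_, ⟨a, rfl⟩, rfl⟩ := hφ
    intro u
    have e : ∀ g : Matrix N.κ M.κ ℚ, (padic p g).map u = u 1 • g := by
      intro g
      ext i j
      show u (algebraMap ℚ ℚ_[p] (g i j)) = u 1 * g i j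
      rw [Algebra.algebraMap_eq_smul_one, map_smul, smul_eq_mul, mul_comm]
    refine ⟨u 1 • a, ?_, ?_⟩
    · rw [map_smul, e]
    · have h3 : N.ρ p σ * padic p (H.betti a) * M.ρ p σ⁻¹ = padic p (H.betti (H.act σ a)) := by
        rw [H.compat p σ a, Matrix.mul_assoc, (rho_inv hM σ).2, Matrix.mul_one]
      rw [h3, map_smul, map_smul, e]
  | zero =>
    intro u
    have e : (0 : Matrix N.κ M.κ ℚ_[p]).map u = 0 := Matrix.map_zero _ (map_zero u)
    refine ⟨0, ?_, ?_⟩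
    · rw [map_zero, e]
    · rw [map_zero, map_zero, Matrix.mul_zero, Matrix.zero_mul, e]
  | add x y _ _ hx hy =>
    intro u
    obtain ⟨a, ha, h1⟩ := hx u
    obtain ⟨b, hb, h2⟩ := hy u
    have e : ∀ a b : Matrix N.κ M.κ ℚ_[p], (a + b).map u = a.map u + b.map u := fun a b =>
      Matrix.map_add _ (map_add u) a b
    refine ⟨a + b, ?_, ?_⟩
    · rw [map_add, ha, hb, e]
    · rw [map_add, map_add, h1, h2, Matrix.mul_add, Matrix.add_mul, e]
  | smul c x _ hx =>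
    intro u
    obtain ⟨a, ha, h1⟩ := hx (u ∘ₗ LinearMap.mulLeft ℚ c)
    refine ⟨a, ha, ?_⟩
    rw [Matrix.mul_smul, Matrix.smul_mul]
    exact h1

/-- Invariant linear combinations of homomorphisms are linear combinations of invariant
homomorphisms. -/
theorem Homs.descend (p : ℕ) [Fact p.Prime] (hM : M.Rep p) (Δ : Subgroup (GK F)) (φ : Matrix N.κ M.κ ℚ_[p])
    (hφ : φ ∈ Submodule.span ℚ_[p] (padic p '' (H.B : Set (Matrix N.κ M.κ ℚ))))
    (hg : IsGaloisHom M N p Δ φ) :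
    φ ∈ Submodule.span ℚ_[p] (padic p '' (H.W Δ : Set (Matrix N.κ M.κ ℚ))) := by
  rw [mem_span_iff]
  intro u
  obtain ⟨a, ha⟩ := (mem_span_iff p H.B φ).1 hφ u
  rw [Homs.mem_W]
  refine ⟨a, fun σ hσ => H.inj ?_, ha⟩
  obtain ⟨b, hb, h1⟩ := H.act_key p hM σ φ hφ u
  have hab : b = a := H.inj (hb.trans ha.symm)
  rw [← hab, h1, hb, hg σ hσ, Matrix.mul_assoc, (rho_inv hM σ).2, Matrix.mul_one]

end cycles

section main

variable {V : Family F} [Nonempty V.T] {P M N : Motive F} (h : (P.sum (two V)).MumfordTate)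
  (hM : Generated V P M) (hN : Generated V P N)

include h hM hN

/-- If all morphisms of Hodge structures are algebraic then the Tate conjecture holds over all finite
extensions. -/
theorem tate_of_hodge (H : Homs M N) (hH : H.Hodge) (p : ℕ) [Fact p.Prime]
    (Δ : Subgroup (GK F)) (hΔ : Δ.FiniteIndex) : H.Tate p Δ := by
  rw [H.tate_iff]
  intro φ hφ
  refine H.descend p (rep h hM p) Δ φ ?_ (mem_galHoms.1 hφ)
  have h1 := gal_le h hM hN p Δ hΔ hφ
  rw [hodgeSpan_eq] at h1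
  refine Submodule.span_mono (Set.image_mono ?_) h1
  intro f hf
  exact hH f (mem_hodgeHoms.1 hf)

/-- The Tate conjecture over a large extension implies that all morphisms of Hodge structures are
algebraic. -/
theorem hodge_of_tate (H : Homs M N) (p : ℕ) [Fact p.Prime] (Δ : Subgroup (GK F))
    (hle : hodgeSpan M N p ≤ galHoms M N p Δ) (ht : H.Tate p Δ) : H.Hodge := by
  rw [H.tate_iff] at ht
  intro f hf
  have h1 := ht (hle (Submodule.subset_span ⟨f, hf, rfl⟩))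
  have h2 := rat_mem p _ f h1
  obtain ⟨a, -, ha⟩ := H.mem_W.1 h2
  exact ⟨a, ha⟩

/-- If all morphisms of Hodge structures are algebraic then motives with isomorphic realizations over
an extension are isomorphic over this extension. -/
theorem iso_over (H : Homs M N) (hH : H.Hodge) (p : ℕ) [Fact p.Prime]
    (Δ : Subgroup (GK F)) (hΔ : Δ.FiniteIndex) (hiso : GaloisIso M N p Δ) :
    ∃ a, (∀ σ ∈ Δ, H.act σ a = a) ∧ ∃ g : Matrix M.κ N.κ ℚ, g * H.betti a = 1 ∧
      H.betti a * g = 1 := by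
  obtain ⟨φ, ψ, hφ, -, h1, h2⟩ := hiso
  have h3 := (H.tate_iff p Δ).1 (tate_of_hodge h hM hN H hH p Δ hΔ) (mem_galHoms.2 hφ)
  obtain ⟨f, hf, g, h4, h5⟩ := exists_inv p (H.W Δ) φ ψ h1 h2 h3
  obtain ⟨a, ha, rfl⟩ := H.mem_W.1 hf
  exact ⟨a, ha, g, h4, h5⟩

end main

end

end Run7.h457.PM
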