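import Pool.Agent.Run7.h457.PM.Defs
import Pool.Agent.Run7.h457.MT.Rel2

/-!
# Vectors fixed by the Galois group and Hodge vectors
-/

set_option autoImplicit false
set_option linter.unusedSectionVars false

namespace Run7.h457.PM

open Matrix NumberField Filter Topology Run7.h457.MT Pool.Agent.W401.Cheb
open Run7.h475.MT (t_LOGFIX t_LOGEX t_INV t_SPANV mt_lie mt_mem mt_mem')
open Run7.h615.MT (galLie_finite log_unique)

noncomputable section

section vec

variable {κ C : Type} [Fintype κ] [DecidableEq κ] [Fintype C] [DecidableEq C] (a b : C → ℤ)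
  (e : C → Matrix κ κ ℂ)

theorem proj_vec (he : ∀ c c', e c * e c' = if c = c' then e c else 0) (φ : C → ℂ) (v : κ → ℂ)
    (c : C) : e c *ᵥ ((∑ c', φ c' • e c') *ᵥ v) = φ c • (e c *ᵥ v) := by
  rw [Matrix.mulVec_mulVec, Finset.mul_sum, Finset.sum_eq_single c]
  · rw [Matrix.mul_smul, he, if_pos rfl, Matrix.smul_mulVec]
  · intro c' _ hc'
    rw [Matrix.mul_smul, he, if_neg (Ne.symm hc'), smul_zero]
  · intro h
    exact absurd (Finset.mem_univ c) h

/-- A character of `ℂ^×` which is trivial. -/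
theorem chr_trivial {a b : ℤ} (h : ∀ z : ℂ, z ≠ 0 → z ^ (-a) * starRingEnd ℂ z ^ (-b) = 1) :
    a = 0 ∧ b = 0 := by
  have h1 : a + b = 0 := by
    have h2 := h 2 (by norm_num)
    have h3 : (starRingEnd ℂ) (2 : ℂ) = 2 := by
      have := Complex.conj_ofReal 2
      simpa using this
    rw [h3, ← zpow_add₀ (by norm_num : (2 : ℂ) ≠ 0)] at h2
    by_contra hne
    have h4 : ((2 : ℝ) ^ (-a + -b) : ℝ) = 1 := by
      have h5 : ((2 : ℂ)) = ((2 : ℝ) : ℂ) := by norm_num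
      rw [h5] at h2
      exact_mod_cast h2
    have h5 := zpow_right_injective₀ (by norm_num : (0 : ℝ) < 2) (by norm_num : (2 : ℝ) ≠ 1)
      (h4.trans (zpow_zero (2 : ℝ)).symm)
    omega
  have h2 : b = -a := by omega
  subst h2
  by_cases ha : a = 0
  · simp [ha]
  · exfalso
    set z : ℂ := Complex.exp (Real.pi / (2 * a) * Complex.I) with hz
    have hz0 : z ≠ 0 := Complex.exp_ne_zero _
    have hconj : starRingEnd ℂ z = z⁻¹ := by
      rw [hz, ← Complex.exp_conj, ← Complex.exp_neg]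
      congr 1
      simp only [map_mul, map_div₀, Complex.conj_ofReal, Complex.conj_I, map_ofNat, map_intCast]
      ring
    have h3 := h z hz0
    rw [hconj, _root_.inv_zpow', neg_neg, ← zpow_add₀ hz0, hz, ← Complex.exp_int_mul] at h3
    have h4 : ((-a + -a : ℤ) : ℂ) * (Real.pi / (2 * a) * Complex.I) = -(Real.pi * Complex.I) := by
      have : (a : ℂ) ≠ 0 := by exact_mod_cast ha
      push_cast
      field_simp
      ring
    rw [h4, Complex.exp_neg, Complex.exp_pi_mul_I] at h3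
    norm_num at h3

theorem hodge_vec (he : ∀ c c', e c * e c' = if c = c' then e c else 0) (hs : ∑ c, e c = 1)
    (v : κ → ℂ) :
    ((∑ c, (a c : ℂ) • e c) *ᵥ v = 0 ∧ (∑ c, (b c : ℂ) • e c) *ᵥ v = 0) ↔
    ∀ z : ℂ, z ≠ 0 → (∑ c, (z ^ (-a c) * starRingEnd ℂ z ^ (-b c)) • e c) *ᵥ v = v := by
  have hv : ∑ c, e c *ᵥ v = v := by
    rw [← Matrix.sum_mulVec, hs, Matrix.one_mulVec]
  constructor
  · rintro ⟨h1, h2⟩ z hz
    conv_rhs => rw [← hv]
    rw [Matrix.sum_mulVec]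
    refine Finset.sum_congr rfl fun c _ => ?_
    rw [Matrix.smul_mulVec]
    have h3 := proj_vec e he (fun c => (a c : ℂ)) v c
    have h4 := proj_vec e he (fun c => (b c : ℂ)) v c
    rw [h1, Matrix.mulVec_zero] at h3
    rw [h2, Matrix.mulVec_zero] at h4
    by_cases hc : e c *ᵥ v = 0
    · rw [hc, smul_zero]
    · have h5 : (a c : ℂ) = 0 := (smul_eq_zero.1 h3.symm).resolve_right hc
      have h6 : (b c : ℂ) = 0 := (smul_eq_zero.1 h4.symm).resolve_right hc
      have h7 : a c = 0 := by exact_mod_cast h5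
      have h8 : b c = 0 := by exact_mod_cast h6
      rw [h7, h8]
      simp
  · intro h
    have key : ∀ c, e c *ᵥ v ≠ 0 → a c = 0 ∧ b c = 0 := by
      intro c hc
      refine chr_trivial fun z hz => ?_
      have h1 := proj_vec e he (fun c => z ^ (-a c) * starRingEnd ℂ z ^ (-b c)) v c
      rw [h z hz] at h1
      have h2 : (z ^ (-a c) * starRingEnd ℂ z ^ (-b c) - 1) • (e c *ᵥ v) = 0 := by
        rw [sub_smul, one_smul, ← h1, sub_self]
      exact sub_eq_zero.1 ((smul_eq_zero.1 h2).resolve_right hc)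
    constructor
    · rw [Matrix.sum_mulVec]
      refine Finset.sum_eq_zero fun c _ => ?_
      rw [Matrix.smul_mulVec]
      by_cases hc : e c *ᵥ v = 0
      · rw [hc, smul_zero]
      · rw [(key c hc).1, Int.cast_zero, zero_smul]
    · rw [Matrix.sum_mulVec]
      refine Finset.sum_eq_zero fun c _ => ?_
      rw [Matrix.smul_mulVec]
      by_cases hc : e c *ᵥ v = 0
      · rw [hc, smul_zero]
      · rw [(key c hc).2, Int.cast_zero, zero_smul]

end vec

section fixed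

variable {κ : Type} [Fintype κ] [DecidableEq κ] {ℓ : ℕ} [Fact ℓ.Prime] {Γ : Type} [Group Γ]

/-- A vector fixed by a power of `g` is killed by the logarithm of `g`. -/
theorem log_kill {g L : Matrix κ κ ℚ_[ℓ]} (hL : IsLog g L) {x : κ → ℚ_[ℓ]} (hx : g *ᵥ x = x) :
    L *ᵥ x = 0 := by
  have hpow : ∀ n : ℕ, (g ^ n) *ᵥ x = x := by
    intro n
    induction n with
    | zero => rw [pow_zero, one_mulVec]
    | succ n ih => rw [pow_succ, ← mulVec_mulVec, hx, ih]
  have hc : Continuous (fun A : Matrix κ κ ℚ_[ℓ] => A *ᵥ x) :=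
    Continuous.matrix_mulVec continuous_id continuous_const
  have h2 := (hc.tendsto _).comp hL
  have h3 : Tendsto (fun n : ℕ => (0 : κ → ℚ_[ℓ])) atTop (𝓝 (L *ᵥ x)) := by
    refine h2.congr fun n => ?_
    simp only [Function.comp]
    rw [smul_mulVec, sub_mulVec, hpow, one_mulVec, sub_self, smul_zero]
  exact tendsto_nhds_unique h3 tendsto_const_nhds

/-- **Vectors fixed by subgroups of finite index** of the Galois group are the linear combinations of
the rational vectors fixed by `ℂ^×`; they are all fixed by one subgroup of finite index. -/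
theorem fixed_vec (ρ : Γ →* Matrix κ κ ℚ_[ℓ])
    (hnear : ∀ N : ℕ, ∃ Δ : Subgroup Γ, Δ.FiniteIndex ∧ ∀ σ ∈ Δ, NearOne N (ρ σ))
    {C : Type} [Fintype C] [DecidableEq C] (a b : C → ℤ) (e : C → Matrix κ κ ℂ)
    (he : ∀ c c', e c * e c' = if c = c' then e c else 0) (hs : ∑ c, e c = 1)
    (h : ℂ → Matrix κ κ ℂ)
    (hh : ∀ z : ℂ, z ≠ 0 → h z = ∑ c, (z ^ (-a c) * starRingEnd ℂ z ^ (-b c)) • e c)
    (hlie : galLie (fun σ => ρ σ) = ratSpan ℚ_[ℓ]
      (mtLie (∑ c, (a c : ℂ) • e c) (∑ c, (b c : ℂ) • e c) : Set (Matrix κ κ ℚ))) :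
    (∀ (Δ : Subgroup Γ), Δ.FiniteIndex → ∀ x : κ → ℚ_[ℓ], (∀ σ ∈ Δ, ρ σ *ᵥ x = x) →
      x ∈ vecSpan ℚ_[ℓ] {v : κ → ℚ | ∀ z : ℂ, z ≠ 0 → h z *ᵥ (fun i => (v i : ℂ)) =
        fun i => (v i : ℂ)}) ∧
    ∃ Δ : Subgroup Γ, Δ.FiniteIndex ∧ ∀ x ∈ vecSpan ℚ_[ℓ] {v : κ → ℚ | ∀ z : ℂ, z ≠ 0 →
      h z *ᵥ (fun i => (v i : ℂ)) = fun i => (v i : ℂ)}, ∀ σ ∈ Δ, ρ σ *ᵥ x = x := by
  have hset : {v : κ → ℚ | ∀ z : ℂ, z ≠ 0 → h z *ᵥ (fun i => (v i : ℂ)) =
      fun i => (v i : ℂ)} = {v : κ → ℚ |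
      ext ℂ LinearMap.id (∑ c, (a c : ℂ) • e c) *ᵥ (fun i => algebraMap ℚ ℂ (v i)) = 0 ∧
      ext ℂ LinearMap.id (∑ c, (b c : ℂ) • e c) *ᵥ (fun i => algebraMap ℚ ℂ (v i)) = 0} := by
    have hid : ∀ A : Matrix κ κ ℂ, ext ℂ LinearMap.id A = A := by
      intro A
      show ∑ i, ∑ j, A i j • (Matrix.single i j (1 : ℚ)).map (algebraMap ℚ ℂ) = A
      conv_rhs => rw [Matrix.matrix_eq_sum_single A]
      refine Finset.sum_congr rfl fun i _ => Finset.sum_congr rfl fun j _ => ?_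
      rw [Matrix.map_single, map_one, Matrix.smul_single, smul_eq_mul, mul_one]
    ext v
    rw [Set.mem_ofPred_eq, Set.mem_ofPred_eq, hid, hid]
    have h1 := hodge_vec a b e he hs fun i => algebraMap ℚ ℂ (v i)
    rw [h1]
    constructor
    · intro h2 z hz
      rw [← hh z hz]
      exact h2 z hz
    · intro h2 z hz
      rw [hh z hz]
      exact h2 z hz
  have hinv := t_INV ℚ_[ℓ] (mtLie (∑ c, (a c : ℂ) • e c) (∑ c, (b c : ℂ) • e c)) LinearMap.id
    (∑ c, (a c : ℂ) • e c) (∑ c, (b c : ℂ) • e c) (mt_lie _ _) (fun _ _ _ _ => rfl) (mt_mem _ _)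
    (mt_mem' _ _)
  rw [← hset] at hinv
  constructor
  · intro Δ hΔ x hx
    rw [← hinv]
    intro y hy
    have hall : ∀ z ∈ galLie (fun σ => ρ σ), z *ᵥ x = 0 := by
      intro z hz
      rw [galLie_finite (ρ : Γ → Matrix κ κ ℚ_[ℓ]) (map_one ρ) (map_mul ρ) Δ] at hz
      refine Submodule.span_induction (p := fun z _ => z *ᵥ x = 0) ?_ ?_ ?_ ?_ hz
      · rintro L ⟨σ, hσ, hL⟩
        exact log_kill hL (hx σ hσ)
      · exact zero_mulVec x
      · intro u w _ _ hu hw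
        rw [add_mulVec, hu, hw, add_zero]
      · intro c u _ hu
        rw [smul_mulVec, hu, smul_zero]
    refine hall _ ?_
    rw [hlie]
    exact Submodule.subset_span ⟨y, hy, rfl⟩
  · obtain ⟨Δ, hΔ, hn⟩ := hnear 2
    refine ⟨Δ, hΔ, fun x hx σ hσ => ?_⟩
    rw [← hinv] at hx
    obtain ⟨L, hL⟩ := t_LOGEX ℓ _ (ρ σ) (hn σ hσ)
    refine t_LOGFIX ℓ _ (ρ σ) L (hn σ hσ) hL x ?_
    have hL' : L ∈ galLie (fun σ => ρ σ) := Submodule.subset_span ⟨σ, hL⟩
    rw [hlie] at hL'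
    refine Submodule.span_induction (p := fun z _ => z *ᵥ x = 0) ?_ ?_ ?_ ?_ hL'
    · rintro _ ⟨y, hy, rfl⟩
      exact hx y hy
    · exact zero_mulVec x
    · intro u w _ _ hu hw
      rw [add_mulVec, hu, hw, add_zero]
    · intro c u _ hu
      rw [smul_mulVec, hu, smul_zero]

end fixed

end

end Run7.h457.PM
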